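import Pool.Agent.Lib.MP_6e8fef_lc.Machine

/-!
Deciding the winner of Question/Answer games on rooted trees is coNP-hard, already for three
rounds.
-/

namespace Pool.Agent.Results.MP_6e8fef_lc.CoNPHard

open Pool.Agent.Lib.MP_6e8fef_lc

/-- **Deciding the winner of Question/Answer games on rooted trees is coNP-hard, already for three
rounds.**  Unsatisfiability of formulas in conjunctive normal form is reduced to the problem
whether Paul wins, by a many-one reduction computable in polynomial time by a multi-stack Turing
machine; the encodings are injective.  Consequently, if the winner of the games with three rounds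
can be decided in polynomial time, then satisfiability of formulas in conjunctive normal form can
be decided in polynomial time. -/
theorem result :
    Function.Injective encF ∧ Function.Injective encG ∧
    (∃ f : CNF → Game, Nonempty (Turing.TM2ComputableInPolyTime encF encG f) ∧
      ∀ F, (f F).2.length = 3 ∧ (PaulWins (f F).1 (f F).2 (fun _ => none) ↔ ¬ F.Sat)) ∧
    ((∃ g : Game → Bool,
      Nonempty (Turing.TM2ComputableInPolyTime encG (fun b : Bool => [b]) g) ∧
      ∀ G : Game, G.2.length = 3 → (g G = true ↔ PaulWins G.1 G.2 fun _ => none)) →
     ∃ h : CNF → Bool,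
      Nonempty (Turing.TM2ComputableInPolyTime encF (fun b : Bool => [b]) h) ∧
      ∀ F, h F = true ↔ F.Sat) := by
  have hred : ∀ F : CNF, (red F).2.length = 3 ∧
      (PaulWins (red F).1 (red F).2 (fun _ => none) ↔ ¬ F.Sat) :=
    fun F => ⟨rfl, (trees_hard F.two_le F.one_le F.S).1⟩
  refine ⟨encF_inj, encG_inj, ⟨red, red_polyTime, hred⟩, ?_⟩
  rintro ⟨g, hg, hg'⟩
  refine ⟨fun F => !(g (red F)), Pool.Agent.Lib.StackLang.polyTime_not ?_, ?_⟩
  · exact red_polyTime_comp hg
  · intro F
    have h1 := hred F
    have h2 := hg' (red F) h1.1
    by_cases h3 : F.Sat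
    · have h4 : g (red F) ≠ true := by
        rw [Ne, h2, h1.2]
        simpa using h3
      simpa [h3] using h4
    · have h4 : g (red F) = true := by
        rw [h2, h1.2]
        exact h3
      simp [h3, h4]

end Pool.Agent.Results.MP_6e8fef_lc.CoNPHard
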